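import Pool.Agent.Lib_helper70.Ladder.Final
import Pool.Agent.Lib_helper89.Corson.Main

/-!
# Fine total measures make ladder systems compact (MP_1c9258_gt)
-/

set_option autoImplicit false

namespace Pool.Agent.Lib_helper33.FT

open Set Cardinal Topology Filter Order MeasureTheory
open Pool.Agent.Lib_helper89.Corson Pool.Agent.Lib_helper70.Lad

/-- Every set `K` has a countably additive probability measure, defined on all sets of subsets
of `K`, which is concentrated on the subsets of size at most continuum and gives measure one to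
`{J | x ∈ J}` for every `x` in `K`. -/
def FineTotalMeasures : Prop :=
  ∀ K : Type, ∃ ν : @Measure (Set K) ⊤, ν Set.univ = 1 ∧ ν {J : Set K | #J ≤ continuum} = 1 ∧
    ∀ x : K, ν {J : Set K | x ∈ J} = 1

variable {α : Type} [LinearOrder α] [WellFoundedLT α]

/-- a ladder system on a stationary set is not free -/
theorem not_free [IsRegularCardinalOrder α] (hα : ℵ₀ < #α) {S : Set α} {L : α → ℕ → α}
    (hS : IsStationary S) (hL : IsLadder S L) : ¬ Free L S := by
  classical
  rintro ⟨g, hg, hfree⟩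
  have hex : ∀ δ : α, ∃ ξ : α, δ ∈ S → ξ < δ ∧ ξ ∈ range (L δ) ∧ g δ < ξ := by
    intro δ
    by_cases h : δ ∈ S
    · obtain ⟨n, hn⟩ := (hL δ h).2.2 (g δ) (hg δ h)
      exact ⟨L δ n, fun _ => ⟨(hL δ h).2.1 n, mem_range_self n, hn⟩⟩
    · exact ⟨δ, fun h' => absurd h' h⟩
  choose k hk using hex
  obtain ⟨ξ, hξ⟩ := fodor hα hS k fun δ hδ => (hk δ hδ).1
  refine hξ ?_
  refine (Set.Subsingleton.countable ?_)
  rintro δ ⟨hδ, hδk⟩ δ' ⟨hδ', hδk'⟩
  have e1 : k δ = ξ := hδk
  have e2 : k δ' = ξ := hδk'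
  have h1 := hk δ hδ
  have h2 := hk δ' hδ'
  rw [e1] at h1
  rw [e2] at h2
  rcases lt_trichotomy δ δ' with h | h | h
  · exact (hfree δ hδ δ' hδ' h ξ h1.2.1 h2.2.1 h1.2.2 h2.2.2).elim
  · exact h
  · exact (hfree δ' hδ' δ hδ h ξ h2.2.1 h1.2.1 h2.2.2 h1.2.2).elim

omit [WellFoundedLT α] in
/-- if all small subsystems of a ladder system are free then, by a fine total measure, the whole
system is free -/
theorem free_of_fine (hF : FineTotalMeasures) {S : Set α} {L : α → ℕ → α} (hL : IsLadder S L)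
    (hfree : ∀ J ⊆ S, #J ≤ continuum → Free L J) : Free L S := by
  classical
  obtain ⟨ν, hν1, hνc, hνx⟩ := hF α
  let _ : MeasurableSpace (Set α) := ⊤
  have hmeas : ∀ A : Set (Set α), MeasurableSet A := fun _ => trivial
  have hsub : ∀ J : Set α, ∃ g : α → α, #J ≤ continuum → (∀ δ ∈ J ∩ S, g δ < δ) ∧
      ∀ δ ∈ J ∩ S, ∀ δ' ∈ J ∩ S, δ < δ' →
        ∀ ξ ∈ range (L δ), ξ ∈ range (L δ') → g δ < ξ → g δ' < ξ → False := by
    intro J
    by_cases hJ : #J ≤ continuum
    · obtain ⟨g, h1, h2⟩ := hfree (J ∩ S) inter_subset_right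
        ((Cardinal.mk_le_mk_of_subset inter_subset_left).trans hJ)
      exact ⟨g, fun _ => ⟨h1, h2⟩⟩
    · exact ⟨id, fun h => absurd h hJ⟩
  choose g hg using hsub
  let A : α → ℕ → Set (Set α) := fun δ n => {J | (#J ≤ continuum ∧ δ ∈ J) ∧ g J δ < L δ n}
  have hone : ∀ δ, ν {J : Set α | #J ≤ continuum ∧ δ ∈ J} = 1 := by
    intro δ
    have h1 : ν ({J : Set α | #J ≤ continuum} ∩ {J : Set α | δ ∈ J})ᶜ = 0 := by
      rw [compl_inter]
      refine measure_union_null ?_ ?_
      · rw [measure_compl (hmeas _) (by rw [hνc]; exact ENNReal.one_ne_top), hν1, hνc]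
        simp
      · rw [measure_compl (hmeas _) (by rw [hνx]; exact ENNReal.one_ne_top), hν1, hνx]
        simp
    have h2 := measure_add_measure_compl (μ := ν)
      (hmeas ({J : Set α | #J ≤ continuum} ∩ {J : Set α | δ ∈ J}))
    rw [h1, add_zero, hν1] at h2
    exact h2
  have hbig : ∀ δ : α, ∃ n : ℕ, δ ∈ S → (1 / 2 : ENNReal) < ν (A δ n) := by
    intro δ
    by_cases hδ : δ ∈ S
    · have hmono : Monotone (A δ) := by
        intro n m hnm J hJ
        exact ⟨hJ.1, hJ.2.trans_le ((hL δ hδ).1.monotone hnm)⟩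
      have hun : ν (⋃ n, A δ n) = 1 := by
        refine le_antisymm ((measure_mono (subset_univ _)).trans hν1.le) ?_
        rw [← hone δ]
        refine measure_mono ?_
        rintro J ⟨hJ1, hJ2⟩
        obtain ⟨n, hn⟩ := (hL δ hδ).2.2 (g J δ) ((hg J hJ1).1 δ ⟨hJ2, hδ⟩)
        exact mem_iUnion.2 ⟨n, ⟨hJ1, hJ2⟩, hn⟩
      rw [hmono.measure_iUnion] at hun
      have h2 : (1 / 2 : ENNReal) < ⨆ n, ν (A δ n) := by
        rw [hun]
        simp
      obtain ⟨n, hn⟩ := lt_iSup_iff.1 h2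
      exact ⟨n, fun _ => hn⟩
    · exact ⟨0, fun h => absurd h hδ⟩
  choose n hn using hbig
  refine ⟨fun δ => L δ (n δ), fun δ hδ => (hL δ hδ).2.1 _, ?_⟩
  intro δ hδ δ' hδ' hlt ξ hξ hξ' h1 h2
  have hmeet : (A δ (n δ) ∩ A δ' (n δ')).Nonempty := by
    by_contra hcon
    rw [not_nonempty_iff_eq_empty] at hcon
    have hd : Disjoint (A δ (n δ)) (A δ' (n δ')) := disjoint_iff_inter_eq_empty.2 hcon
    have h3 : ν (A δ (n δ)) + ν (A δ' (n δ')) ≤ 1 := by
      rw [← measure_union hd (hmeas _), ← hν1]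
      exact measure_mono (subset_univ _)
    have h4 := ENNReal.add_lt_add (hn δ hδ) (hn δ' hδ')
    rw [ENNReal.add_halves] at h4
    exact absurd h3 (not_le.2 h4)
  obtain ⟨J, hJ, hJ'⟩ := hmeet
  exact (hg J hJ.1.1).2 δ ⟨hJ.1.2, hδ⟩ δ' ⟨hJ'.1.2, hδ'⟩ hlt ξ hξ hξ' (hJ.2.trans h1)
    (hJ'.2.trans h2)

/-- fine total measures give compactness of ladder systems -/
theorem ladder_of_fine (hF : FineTotalMeasures) : LadderCompactness := by
  intro α _ _ _ hα S L hS hL
  by_contra hno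
  push Not at hno
  exact not_free (aleph0_lt_continuum.trans hα) hS hL (free_of_fine hF hL hno)

end Pool.Agent.Lib_helper33.FT
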